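import Mathlib

/-!
# The orthogonal Lie algebra is simple
-/

set_option autoImplicit false
set_option linter.unusedSectionVars false
set_option linter.unusedVariables false

namespace Pool.Agent.H20.TI

open Matrix

variable {k R : Type} [Field k] [CharZero k] [Fintype R] [DecidableEq R] (a : R → k)

/-- the skew matrices for the form `∑ a i x i y i` -/
def SoM : Submodule k (Matrix R R k) where
  carrier := {X | ∀ i j, a i * X i j + a j * X j i = 0}
  add_mem' := by
    intro X Y hX hY i j
    rw [Matrix.add_apply, Matrix.add_apply]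
    linear_combination hX i j + hY i j
  zero_mem' := by
    intro i j
    rw [Matrix.zero_apply, Matrix.zero_apply, mul_zero, mul_zero, add_zero]
  smul_mem' := by
    intro c X hX i j
    rw [Matrix.smul_apply, Matrix.smul_apply, smul_eq_mul, smul_eq_mul]
    linear_combination c * hX i j

theorem mem_SoM {X : Matrix R R k} : X ∈ SoM a ↔ ∀ i j, a i * X i j + a j * X j i = 0 := Iff.rfl

/-- the elementary skew matrices -/
def EE (i j : R) : Matrix R R k := a j • single i j 1 - a i • single j i 1

theorem EE_apply (i j s t : R) : EE a i j s t =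
    (if i = s ∧ j = t then a j else 0) - (if j = s ∧ i = t then a i else 0) := by
  rw [EE, Matrix.sub_apply, Matrix.smul_apply, Matrix.smul_apply, single_apply, single_apply,
    smul_eq_mul, smul_eq_mul, mul_ite, mul_one, mul_zero, mul_ite, mul_one, mul_zero]

theorem EE_mem (i j : R) : EE a i j ∈ SoM a := by
  intro s t
  rw [EE_apply, EE_apply]
  by_cases h1 : i = s ∧ j = t
  · obtain ⟨rfl, rfl⟩ := h1
    by_cases h2 : j = i
    · subst h2
      simp
    · simp [h2, Ne.symm h2]
      ring
  · by_cases h2 : j = s ∧ i = t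
    · obtain ⟨rfl, rfl⟩ := h2
      have h3 : ¬ i = j := fun h => h1 ⟨h, h.symm⟩
      simp [h3, Ne.symm h3]
      ring
    · have h3 : ¬ (i = t ∧ j = s) := fun h => h2 ⟨h.2, h.1⟩
      have h4 : ¬ (j = t ∧ i = s) := fun h => h1 ⟨h.2, h.1⟩
      simp [h1, h2, h3, h4]

theorem EE_mul {i j : R} (hij : i ≠ j) (Y : Matrix R R k) (s t : R) : (EE a i j * Y) s t =
    if s = i then a j * Y j t else if s = j then -(a i * Y i t) else 0 := by
  rw [mul_apply]
  by_cases h1 : s = i
  · subst h1
    rw [if_pos rfl, Finset.sum_eq_single j]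
    · rw [EE_apply]
      simp [hij, Ne.symm hij]
    · intro r _ hr
      rw [EE_apply]
      simp [Ne.symm hr, Ne.symm hij]
    · intro h
      exact absurd (Finset.mem_univ _) h
  · rw [if_neg h1]
    by_cases h2 : s = j
    · subst h2
      rw [if_pos rfl, Finset.sum_eq_single i]
      · rw [EE_apply]
        simp [hij]
      · intro r _ hr
        rw [EE_apply]
        simp [Ne.symm hr, hij]
      · intro h
        exact absurd (Finset.mem_univ _) h
    · rw [if_neg h2]
      refine Finset.sum_eq_zero fun r _ => ?_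
      rw [EE_apply]
      simp [Ne.symm h1, Ne.symm h2]

theorem mul_EE {i j : R} (hij : i ≠ j) (Y : Matrix R R k) (s t : R) : (Y * EE a i j) s t =
    if t = j then a j * Y s i else if t = i then -(a i * Y s j) else 0 := by
  rw [mul_apply]
  by_cases h1 : t = j
  · subst h1
    rw [if_pos rfl, Finset.sum_eq_single i]
    · rw [EE_apply]
      simp [hij, Ne.symm hij, mul_comm]
    · intro r _ hr
      rw [EE_apply]
      simp [Ne.symm hr, hij]
    · intro h
      exact absurd (Finset.mem_univ _) h
  · rw [if_neg h1]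
    by_cases h2 : t = i
    · subst h2
      rw [if_pos rfl, Finset.sum_eq_single j]
      · rw [EE_apply]
        simp [Ne.symm hij, mul_comm]
      · intro r _ hr
        rw [EE_apply]
        simp [Ne.symm hr, Ne.symm hij]
      · intro h
        exact absurd (Finset.mem_univ _) h
    · rw [if_neg h2]
      refine Finset.sum_eq_zero fun r _ => ?_
      rw [EE_apply]
      simp [Ne.symm h1, Ne.symm h2]

/-- the entries with exactly one index in `{i, j}` -/
def msk (i j : R) (Y : Matrix R R k) : Matrix R R k :=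
  Matrix.of fun s t => if ((s = i ∨ s = j) ↔ (t = i ∨ t = j)) then 0 else Y s t

theorem msk_eq {i j : R} (hij : i ≠ j) {Y : Matrix R R k} (hY : Y ∈ SoM a) :
    EE a i j * (EE a i j * Y - Y * EE a i j) - (EE a i j * Y - Y * EE a i j) * EE a i j =
      (-(a i * a j)) • msk i j Y := by
  ext s t
  have h1 := hY i j
  have h2 := hY i i
  have h3 := hY j j
  have hji := Ne.symm hij
  rw [Matrix.sub_apply, EE_mul a hij, mul_EE a hij, Matrix.smul_apply, msk, Matrix.of_apply]
  simp only [Matrix.sub_apply, EE_mul a hij, mul_EE a hij, smul_eq_mul]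
  by_cases hsi : s = i
  · subst hsi
    by_cases hts : t = s
    · subst hts
      simp [hij, hji]
      linear_combination (-a j) * h2 + a t * h3
    · by_cases htj : t = j
      · subst htj
        simp [hij, hji]
        linear_combination (-2 * a t) * h1
      · simp [hij, hji, hts, htj]
        ring
  · by_cases hsj : s = j
    · subst hsj
      by_cases hts : t = s
      · subst hts
        simp [hij, hji]
        linear_combination (-a i) * h3 + a t * h2
      · by_cases hti : t = i
        · subst hti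
          simp [hij, hji]
          linear_combination (-2 * a t) * h1
        · simp [hij, hji, hts, hti]
          ring
    · by_cases hti : t = i
      · subst hti
        simp [hij, hji, hsi, hsj]
        ring
      · by_cases htj : t = j
        · subst htj
          simp [hij, hji, hsi, hsj]
          ring
        · simp [hsi, hsj, hti, htj]

theorem bracket_EE {i j l : R} (hij : i ≠ j) (hjl : j ≠ l) (hil : i ≠ l) :
    EE a i j * EE a j l - EE a j l * EE a i j = a j • EE a i l := by
  ext s t
  rw [Matrix.sub_apply, EE_mul a hij, mul_EE a hij, Matrix.smul_apply, smul_eq_mul]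
  simp only [EE_apply]
  have h1 := Ne.symm hij
  have h2 := Ne.symm hjl
  have h3 := Ne.symm hil
  by_cases hsi : s = i
  · subst hsi
    by_cases htl : t = l
    · subst htl
      simp [h1, h2, h3, hij, hjl, hil]
    · by_cases htj : t = j
      · subst htj
        simp [h1, h2, h3, hij, hjl, hil]
      · by_cases hts : t = s
        · subst hts
          simp [h1, h2, h3, hij, hjl, hil]
        · simp [h1, h2, h3, hij, hjl, hil, htl, htj, hts, Ne.symm htl, Ne.symm htj, Ne.symm hts]
  · by_cases hsl : s = l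
    · subst hsl
      by_cases hti : t = i
      · subst hti
        simp [h1, h2, h3, hij, hjl, hil]
        ring
      · by_cases htj : t = j
        · subst htj
          simp [h1, h2, h3, hij, hjl, hil]
        · simp [h1, h2, h3, hij, hjl, hil, hti, htj, Ne.symm hti, Ne.symm htj]
    · by_cases hsj : s = j
      · subst hsj
        by_cases hti : t = i
        · subst hti
          simp [h1, h2, h3, hij, hjl, hil]
        · by_cases htj : t = s
          · subst htj
            simp [h1, h2, h3, hij, hjl, hil]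
          · simp [h1, h2, h3, hij, hjl, hil, hti, htj, Ne.symm hti, Ne.symm htj]
      · simp [hsi, hsl, hsj, Ne.symm hsi, Ne.symm hsl, Ne.symm hsj]

theorem EE_neg (i j : R) : EE a i j = -EE a j i := by
  rw [EE, EE, neg_sub]

/-- expansion in elementary skew matrices -/
theorem expand_EE (ha : ∀ i, a i ≠ 0) {X : Matrix R R k} (hX : X ∈ SoM a) :
    X = ∑ i, ∑ j, ((2 : k)⁻¹ * (X i j / a j)) • EE a i j := by
  ext s t
  simp only [Matrix.sum_apply, Matrix.smul_apply, EE_apply, smul_eq_mul, mul_sub,
    Finset.sum_sub_distrib]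
  have e1 : ∑ x, ∑ y, (2 : k)⁻¹ * (X x y / a y) * (if x = s ∧ y = t then a y else 0) =
      (2 : k)⁻¹ * X s t := by
    rw [Finset.sum_eq_single s, Finset.sum_eq_single t]
    · rw [if_pos ⟨rfl, rfl⟩]
      field_simp [ha t]
    · intro b _ hb
      rw [if_neg (fun h => hb h.2), mul_zero]
    · intro h
      exact absurd (Finset.mem_univ _) h
    · intro b _ hb
      refine Finset.sum_eq_zero fun c _ => ?_
      rw [if_neg (fun h => hb h.1), mul_zero]
    · intro h
      exact absurd (Finset.mem_univ _) h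
  have e2 : ∑ x, ∑ y, (2 : k)⁻¹ * (X x y / a y) * (if y = s ∧ x = t then a x else 0) =
      (2 : k)⁻¹ * (X t s / a s) * a t := by
    rw [Finset.sum_eq_single t, Finset.sum_eq_single s]
    · rw [if_pos ⟨rfl, rfl⟩]
    · intro b _ hb
      rw [if_neg (fun h => hb h.1), mul_zero]
    · intro h
      exact absurd (Finset.mem_univ _) h
    · intro b _ hb
      refine Finset.sum_eq_zero fun c _ => ?_
      rw [if_neg (fun h => hb h.2), mul_zero]
    · intro h
      exact absurd (Finset.mem_univ _) h
  rw [e1, e2]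
  have h1 : X t s * a t = -(a s * X s t) := by linear_combination hX s t
  have h2 : (2 : k)⁻¹ * (X t s / a s) * a t = (2 : k)⁻¹ * (X t s * a t) / a s := by ring
  rw [h2, h1]
  have h3 := ha s
  field_simp
  ring

theorem exists_new (s : Finset R) (h : s.card < Fintype.card R) : ∃ x, x ∉ s := by
  by_contra hcon
  push Not at hcon
  have h1 := Finset.eq_univ_iff_forall.2 hcon
  rw [h1, Finset.card_univ] at h
  exact lt_irrefl _ h

theorem msk_all {p q r₁ r₂ r₃ : R} (hpq : p ≠ q) (h1 : r₁ ≠ p) (h1' : r₁ ≠ q) (h2 : r₂ ≠ p)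
    (h2' : r₂ ≠ q) (h3 : r₃ ≠ p) (h3' : r₃ ≠ q) (h12 : r₁ ≠ r₂) (h13 : r₁ ≠ r₃) (h23 : r₂ ≠ r₃)
    {Y : Matrix R R k} (ha : ∀ i, a i ≠ 0) (hY : Y ∈ SoM a) :
    msk p r₃ (msk p r₂ (msk p r₁ (Y - msk p q Y))) = (Y p q / a q) • EE a p q := by
  have hd : ∀ i, Y i i = 0 := by
    intro i
    have h := hY i i
    have h' : (2 * a i) * Y i i = 0 := by linear_combination h
    exact (mul_eq_zero.1 h').resolve_left (mul_ne_zero two_ne_zero (ha i))
  have hqp : Y q p = -(Y p q / a q * a p) := by
    have h := hY p q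
    have h' := ha q
    field_simp
    linear_combination h
  have hpq' : Y p q = Y p q / a q * a q := by
    have h' := ha q
    field_simp
  ext s t
  rw [Matrix.smul_apply, EE_apply, smul_eq_mul]
  simp only [msk, Matrix.of_apply, Matrix.sub_apply]
  by_cases c1 : s = p ∧ t = q
  · obtain ⟨rfl, rfl⟩ := c1
    simp [hpq, Ne.symm hpq, h1', h2', h3', Ne.symm h1', Ne.symm h2', Ne.symm h3']
    field_simp [ha t]
  · by_cases c2 : s = q ∧ t = p
    · obtain ⟨rfl, rfl⟩ := c2
      simp [hpq, Ne.symm hpq, Ne.symm h1', Ne.symm h2', Ne.symm h3']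
      rw [hqp]
    · have e1 : ¬ (p = s ∧ q = t) := fun h => c1 ⟨h.1.symm, h.2.symm⟩
      have e2 : ¬ (q = s ∧ p = t) := fun h => c2 ⟨h.1.symm, h.2.symm⟩
      rw [if_neg e1, if_neg e2, sub_zero, mul_zero]
      have hds := hd s
      grind

theorem msk_three (hc : Fintype.card R = 3) {p q : R} (hpq : p ≠ q)
    {Y : Matrix R R k} (ha : ∀ i, a i ≠ 0) (hY : Y ∈ SoM a) :
    Y - msk p q Y = (Y p q / a q) • EE a p q := by
  have hd : ∀ i, Y i i = 0 := by
    intro i
    have h := hY i i
    have h' : (2 * a i) * Y i i = 0 := by linear_combination h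
    exact (mul_eq_zero.1 h').resolve_left (mul_ne_zero two_ne_zero (ha i))
  have hqp : Y q p = -(Y p q / a q * a p) := by
    have h := hY p q
    have h' := ha q
    field_simp
    linear_combination h
  have hst : ∀ s t, s ≠ p → s ≠ q → t ≠ p → t ≠ q → s = t := by
    intro s t h1 h2 h3 h4
    by_contra h5
    have h6 : ({p, q, s, t} : Finset R).card = 4 := by
      rw [Finset.card_insert_of_notMem, Finset.card_insert_of_notMem, Finset.card_insert_of_notMem,
        Finset.card_singleton]
      · simp [h5]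
      · simp [Ne.symm h2, Ne.symm h4]
      · simp [hpq, Ne.symm h1, Ne.symm h3]
    have h7 := Finset.card_le_univ ({p, q, s, t} : Finset R)
    omega
  ext s t
  rw [Matrix.smul_apply, EE_apply, smul_eq_mul]
  simp only [msk, Matrix.of_apply, Matrix.sub_apply]
  by_cases c1 : s = p ∧ t = q
  · obtain ⟨rfl, rfl⟩ := c1
    simp [hpq, Ne.symm hpq]
    field_simp [ha t]
  · by_cases c2 : s = q ∧ t = p
    · obtain ⟨rfl, rfl⟩ := c2
      simp [hpq, Ne.symm hpq]
      rw [hqp]
    · have e1 : ¬ (p = s ∧ q = t) := fun h => c1 ⟨h.1.symm, h.2.symm⟩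
      have e2 : ¬ (q = s ∧ p = t) := fun h => c2 ⟨h.1.symm, h.2.symm⟩
      rw [if_neg e1, if_neg e2, sub_zero, mul_zero]
      have hds := hd s
      have hst' := hst s t
      grind

/-- **The Lie algebra of skew matrices is simple.** -/
theorem SoM_simple (ha : ∀ i, a i ≠ 0) (hc : Fintype.card R = 3 ∨ 5 ≤ Fintype.card R)
    {J : Submodule k (Matrix R R k)}
    (hJ : J ≤ SoM a) (hbr : ∀ X ∈ SoM a, ∀ Y ∈ J, X * Y - Y * X ∈ J) (hne : ∃ Y ∈ J, Y ≠ 0) :
    SoM a ≤ J := by
  have hmsk : ∀ i j, i ≠ j → ∀ Y ∈ J, msk i j Y ∈ J := by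
    intro i j hij Y hY
    have h1 := hbr _ (EE_mem a i j) _ (hbr _ (EE_mem a i j) Y hY)
    rw [msk_eq a hij (hJ hY)] at h1
    exact (Submodule.smul_mem_iff _ (neg_ne_zero.2 (mul_ne_zero (ha i) (ha j)))).1 h1
  obtain ⟨Y, hY, hY0⟩ := hne
  obtain ⟨p, q, hYpq⟩ : ∃ p q, Y p q ≠ 0 := by
    by_contra hcon
    push Not at hcon
    exact hY0 (Matrix.ext hcon)
  have hpq : p ≠ q := by
    rintro rfl
    have h := hJ hY p p
    have h' : (2 * a p) * Y p p = 0 := by linear_combination h
    exact hYpq ((mul_eq_zero.1 h').resolve_left (mul_ne_zero two_ne_zero (ha p)))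
  have hEpq : EE a p q ∈ J := by
    rcases hc with hc | hc
    · have h1 := sub_mem hY (hmsk p q hpq Y hY)
      rw [msk_three a hc hpq ha (hJ hY)] at h1
      exact (Submodule.smul_mem_iff _ (div_ne_zero hYpq (ha q))).1 h1
    obtain ⟨r₁, hr₁⟩ := exists_new {p, q} (lt_of_le_of_lt Finset.card_le_two (by omega))
    obtain ⟨r₂, hr₂⟩ := exists_new {p, q, r₁} (lt_of_le_of_lt Finset.card_le_three (by omega))
    obtain ⟨r₃, hr₃⟩ := exists_new {p, q, r₁, r₂} (lt_of_le_of_lt Finset.card_le_four (by omega))
    simp only [Finset.mem_insert, Finset.mem_singleton, not_or] at hr₁ hr₂ hr₃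
    have h1 := hmsk p r₃ (Ne.symm hr₃.1) _ (hmsk p r₂ (Ne.symm hr₂.1) _
      (hmsk p r₁ (Ne.symm hr₁.1) _ (sub_mem hY (hmsk p q hpq Y hY))))
    rw [msk_all a hpq hr₁.1 hr₁.2 hr₂.1 hr₂.2.1 hr₃.1 hr₃.2.1 (Ne.symm hr₂.2.2) (Ne.symm hr₃.2.2.1)
      (Ne.symm hr₃.2.2.2) ha (hJ hY)] at h1
    exact (Submodule.smul_mem_iff _ (div_ne_zero hYpq (ha q))).1 h1
  have hneg : ∀ i j, EE a i j ∈ J → EE a j i ∈ J := by
    intro i j h
    rw [EE_neg]
    exact neg_mem h
  have htr : ∀ i j l, i ≠ j → j ≠ l → i ≠ l → EE a i j ∈ J → EE a i l ∈ J := by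
    intro i j l hij hjl hil h
    have h1 := hbr _ (EE_mem a j l) _ h
    have h2 : a j • EE a i l ∈ J := by
      rw [← bracket_EE a hij hjl hil, ← neg_sub]
      exact neg_mem h1
    exact (Submodule.smul_mem_iff _ (ha j)).1 h2
  have hp : ∀ l, l ≠ p → EE a p l ∈ J := by
    intro l hl
    by_cases hlq : l = q
    · rw [hlq]; exact hEpq
    · exact htr p q l hpq (fun h => hlq h.symm) (Ne.symm hl) hEpq
  have hall : ∀ i j, i ≠ j → EE a i j ∈ J := by
    intro i j hij
    by_cases hi : i = p
    · rw [hi]; exact hp j (by rw [← hi]; exact Ne.symm hij)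
    · by_cases hj : j = p
      · rw [hj]; exact hneg _ _ (hp i hi)
      · exact htr i p j hi (Ne.symm hj) hij (hneg _ _ (hp i hi))
  intro X hX
  rw [expand_EE a ha hX]
  refine Submodule.sum_mem _ fun i _ => Submodule.sum_mem _ fun j _ => Submodule.smul_mem _ _ ?_
  by_cases hij : i = j
  · rw [hij, EE, sub_self]
    exact zero_mem _
  · exact hall i j hij

end Pool.Agent.H20.TI
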