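import Mathlib
import Pool.Agent.H20.TI.So
import Pool.Agent.H20.TD.Link

/-!
# The Lie algebra of a symmetric form
-/

set_option autoImplicit false
set_option linter.unusedSectionVars false
set_option linter.unusedVariables false

namespace Pool.Agent.H20.TI

open Matrix Module Pool.Agent.Y114.MU

variable {k V : Type} [Field k] [CharZero k] [AddCommGroup V] [Module k V] [FiniteDimensional k V]
  (ω : V →ₗ[k] V →ₗ[k] k)

theorem mem_SpL' {X : End k V} : X ∈ SpL ω ↔ ∀ u w, ω (X u) w + ω u (X w) = 0 := Iff.rfl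

theorem ortho_basis (hs : ∀ u v, ω u v = ω v u) (hnd : ∀ u, (∀ v, ω v u = 0) → u = 0) :
    ∃ e : Basis (Fin (finrank k V)) k V, (∀ i j, i ≠ j → ω (e i) (e j) = 0) ∧
      ∀ i, ω (e i) (e i) ≠ 0 := by
  let _ : Invertible (2 : k) := invertibleOfNonzero two_ne_zero
  obtain ⟨e, he⟩ := LinearMap.BilinForm.exists_orthogonal_basis (B := ω) ⟨fun x y => hs x y⟩
  have h1 : ∀ i j, i ≠ j → ω (e i) (e j) = 0 := fun i j hij => he hij
  refine ⟨e, h1, fun i hi => ?_⟩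
  refine e.ne_zero i (hnd _ fun v => ?_)
  rw [← e.sum_repr v, map_sum, LinearMap.sum_apply]
  refine Finset.sum_eq_zero fun j _ => ?_
  rw [map_smul, LinearMap.smul_apply]
  by_cases hij : j = i
  · rw [hij, hi, smul_zero]
  · rw [h1 j i hij, smul_zero]

theorem form_repr {n : ℕ} (e : Basis (Fin n) k V) (h1 : ∀ i j, i ≠ j → ω (e i) (e j) = 0) (i : Fin n)
    (v : V) : ω (e i) v = ω (e i) (e i) * e.repr v i := by
  conv_lhs => rw [← e.sum_repr v]
  rw [map_sum, Finset.sum_eq_single i]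
  · rw [map_smul, smul_eq_mul, mul_comm]
  · intro j _ hj
    rw [map_smul, h1 i j (Ne.symm hj), smul_zero]
  · intro h
    exact absurd (Finset.mem_univ _) h

/-- a bilinear form which vanishes on a basis -/
theorem form_zero {n : ℕ} (e : Basis (Fin n) k V) (β : V →ₗ[k] V →ₗ[k] k)
    (h : ∀ i j, β (e i) (e j) = 0) (u v : V) : β u v = 0 := by
  have h1 : β = 0 := LinearMap.BilinForm.ext_basis e fun i j => by
    rw [h i j]
    rfl
  rw [h1]
  rfl

theorem mem_SpL_basis {n : ℕ} (e : Basis (Fin n) k V) {X : End k V} :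
    X ∈ SpL ω ↔ ∀ i j, ω (X (e i)) (e j) + ω (e i) (X (e j)) = 0 := by
  constructor
  · intro h i j
    exact h _ _
  · intro h u w
    exact form_zero e (ω ∘ₗ X + ω.compl₂ X) (fun i j => h i j) u w

/-- membership in terms of the matrix -/
theorem mem_SoM_iff (hs : ∀ u v, ω u v = ω v u) {n : ℕ} (e : Basis (Fin n) k V)
    (h1 : ∀ i j, i ≠ j → ω (e i) (e j) = 0) {X : End k V} :
    X ∈ SpL ω ↔ LinearMap.toMatrixAlgEquiv e X ∈ SoM fun i => ω (e i) (e i) := by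
  rw [mem_SpL_basis ω e, mem_SoM]
  have h2 : ∀ i j, ω (e i) (X (e j)) = ω (e i) (e i) * LinearMap.toMatrixAlgEquiv e X i j := by
    intro i j
    rw [form_repr ω e h1, LinearMap.toMatrixAlgEquiv_apply]
  constructor
  · intro h i j
    have h3 := h j i
    rw [hs (X (e j)) (e i), h2, h2] at h3
    exact h3
  · intro h i j
    rw [hs (X (e i)) (e j), h2, h2]
    exact h j i

/-- **The Lie algebra of a symmetric form is simple.** -/
theorem SpL_simple (hs : ∀ u v, ω u v = ω v u) (hnd : ∀ u, (∀ v, ω v u = 0) → u = 0)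
    (hc : finrank k V = 3 ∨ 5 ≤ finrank k V) {J : Submodule k (End k V)} (hJ : J ≤ SpL ω)
    (hbr : ∀ X ∈ SpL ω, ∀ Y ∈ J, X * Y - Y * X ∈ J) (hne : ∃ Y ∈ J, Y ≠ 0) : SpL ω ≤ J := by
  obtain ⟨e, h1, h2⟩ := ortho_basis ω hs hnd
  let τ := LinearMap.toMatrixAlgEquiv e
  have hm := fun X : End k V => mem_SoM_iff ω hs e h1 (X := X)
  have h3 : SoM (fun i => ω (e i) (e i)) ≤ J.map τ.toLinearMap := by
    refine SoM_simple _ h2 (by rwa [Fintype.card_fin]) ?_ ?_ ?_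
    · rintro _ ⟨X, hX, rfl⟩
      exact (hm X).1 (hJ hX)
    · rintro X hX _ ⟨Y, hY, rfl⟩
      have h4 : τ.symm X ∈ SpL ω := by
        rw [hm]
        change τ (τ.symm X) ∈ _
        rw [AlgEquiv.apply_symm_apply]
        exact hX
      refine ⟨_, hbr _ h4 Y hY, ?_⟩
      change τ (τ.symm X * Y - Y * τ.symm X) = X * τ Y - τ Y * X
      rw [map_sub, map_mul, map_mul, AlgEquiv.apply_symm_apply]
    · obtain ⟨Y, hY, hY0⟩ := hne
      exact ⟨_, ⟨Y, hY, rfl⟩, fun h => hY0 (τ.injective (h.trans (map_zero τ).symm))⟩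
  intro X hX
  obtain ⟨Y, hY, hYX⟩ := h3 ((hm X).1 hX)
  have h4 : Y = X := τ.injective hYX
  rw [← h4]
  exact hY

theorem SpL_nab_symm (hs : ∀ u v, ω u v = ω v u) (hnd : ∀ u, (∀ v, ω v u = 0) → u = 0)
    (hc : 3 ≤ finrank k V) : ∃ X ∈ SpL ω, ∃ Y ∈ SpL ω, X * Y - Y * X ≠ 0 := by
  obtain ⟨e, h1, h2⟩ := ortho_basis ω hs hnd
  let τ := LinearMap.toMatrixAlgEquiv e
  have hm := fun X : End k V => mem_SoM_iff ω hs e h1 (X := X)
  obtain ⟨a, ha⟩ : ∃ a : Fin (finrank k V) → k, a = fun i => ω (e i) (e i) := ⟨_, rfl⟩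
  let i₀ : Fin (finrank k V) := ⟨0, by omega⟩
  let i₁ : Fin (finrank k V) := ⟨1, by omega⟩
  let i₂ : Fin (finrank k V) := ⟨2, by omega⟩
  have h01 : i₀ ≠ i₁ := by simp [i₀, i₁]
  have h12 : i₁ ≠ i₂ := by simp [i₁, i₂]
  have h02 : i₀ ≠ i₂ := by simp [i₀, i₂]
  have hmem : ∀ i j, τ.symm (EE a i j) ∈ SpL ω := by
    intro i j
    rw [hm]
    change τ (τ.symm _) ∈ _
    rw [AlgEquiv.apply_symm_apply, ← ha]
    exact EE_mem a i j
  refine ⟨_, hmem i₀ i₁, _, hmem i₁ i₂, fun h => ?_⟩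
  have h3 := congrArg τ h
  rw [map_sub, map_mul, map_mul, AlgEquiv.apply_symm_apply, AlgEquiv.apply_symm_apply, map_zero,
    bracket_EE a h01 h12 h02] at h3
  have h4 := congrFun (congrFun h3 i₀) i₂
  rw [Matrix.smul_apply, EE_apply, Matrix.zero_apply, if_pos ⟨rfl, rfl⟩,
    if_neg (fun h => h02 h.2), sub_zero, smul_eq_mul] at h4
  have h5 : ∀ i, a i ≠ 0 := fun i => by rw [ha]; exact h2 i
  exact mul_ne_zero (h5 i₁) (h5 i₂) h4

end Pool.Agent.H20.TI
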