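import Mathlib
import Pool.Agent.H20.TI.Simple

/-!
# The dimension of the Lie algebra of a form
-/

set_option autoImplicit false
set_option linter.unusedSectionVars false
set_option linter.unusedVariables false

namespace Pool.Agent.H20.TI

open Matrix Module Pool.Agent.Y114.MU

theorem card_lt (n : ℕ) : 2 * Fintype.card {p : Fin n × Fin n // p.1 < p.2} = n * (n - 1) ∧
    2 * Fintype.card {p : Fin n × Fin n // p.1 ≤ p.2} = n * (n + 1) := by
  rw [Fintype.card_subtype, Fintype.card_subtype]
  have h1 : (Finset.univ.filter fun p : Fin n × Fin n => p.1 < p.2).card =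
      (Finset.univ.filter fun p : Fin n × Fin n => ¬ p.1 ≤ p.2).card := by
    refine Finset.card_bij (fun p _ => p.swap) ?_ ?_ ?_
    · intro p hp
      simp only [Finset.mem_filter, Finset.mem_univ, true_and, Prod.fst_swap, Prod.snd_swap,
        not_le] at hp ⊢
      exact hp
    · intro p _ q _ h
      exact Prod.swap_injective h
    · intro p hp
      refine ⟨p.swap, ?_, Prod.swap_swap p⟩
      simp only [Finset.mem_filter, Finset.mem_univ, true_and, Prod.fst_swap, Prod.snd_swap,
        not_le] at hp ⊢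
      exact hp
  have h2 : (Finset.univ.filter fun p : Fin n × Fin n => p.1 ≤ p.2).card +
      (Finset.univ.filter fun p : Fin n × Fin n => ¬ p.1 ≤ p.2).card = n * n := by
    rw [Finset.card_filter_add_card_filter_not, Finset.card_univ, Fintype.card_prod,
      Fintype.card_fin]
  have h3 : (Finset.univ.filter fun p : Fin n × Fin n => p.1 ≤ p.2).card =
      (Finset.univ.filter fun p : Fin n × Fin n => p.1 < p.2).card + n := by
    have h4 : (Finset.univ.filter fun p : Fin n × Fin n => p.1 ≤ p.2) =
        (Finset.univ.filter fun p : Fin n × Fin n => p.1 < p.2) ∪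
        (Finset.univ.image fun i : Fin n => (i, i)) := by
      ext p
      simp only [Finset.mem_filter, Finset.mem_univ, true_and, Finset.mem_union, Finset.mem_image]
      constructor
      · intro h
        rcases lt_or_eq_of_le h with h | h
        · exact Or.inl h
        · exact Or.inr ⟨p.1, Prod.ext rfl h⟩
      · rintro (h | ⟨i, rfl⟩)
        · exact h.le
        · exact le_rfl
    rw [h4, Finset.card_union_of_disjoint, Finset.card_image_of_injective, Finset.card_univ,
      Fintype.card_fin]
    · intro i j h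
      exact congrArg Prod.fst h
    · rw [Finset.disjoint_left]
      intro p hp hp'
      obtain ⟨i, -, rfl⟩ := Finset.mem_image.1 hp'
      simp at hp
  rcases Nat.eq_zero_or_pos n with rfl | hn
  · omega
  · obtain ⟨m, rfl⟩ := Nat.exists_eq_succ_of_ne_zero hn.ne'
    simp only [Nat.succ_eq_add_one, Nat.add_sub_cancel] at *
    constructor
    · nlinarith
    · nlinarith

variable {k V : Type} [Field k] [CharZero k] [AddCommGroup V] [Module k V] [FiniteDimensional k V]
  (ω : V →ₗ[k] V →ₗ[k] k)

theorem exists_rep (hnd : ∀ u, (∀ v, ω u v = 0) → u = 0) (β : V →ₗ[k] V →ₗ[k] k) :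
    ∃ X : End k V, ∀ u v, ω (X u) v = β u v := by
  have hinj : Function.Injective ω := by
    rw [← LinearMap.ker_eq_bot, LinearMap.ker_eq_bot']
    intro u hu
    exact hnd u fun v => by rw [hu]; rfl
  have hbij : Function.Bijective ω :=
    ⟨hinj, (LinearMap.injective_iff_surjective_of_finrank_eq_finrank
      (Subspace.dual_finrank_eq (K := k) (V := V)).symm).1 hinj⟩
  let e := LinearEquiv.ofBijective ω hbij
  refine ⟨e.symm.toLinearMap ∘ₗ β, fun u v => ?_⟩
  have h1 : e (e.symm (β u)) = β u := e.apply_symm_apply _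
  exact LinearMap.congr_fun h1 v

variable {ω}

theorem SpL_skew {c : k} (hs : ∀ u v, ω v u = -c * ω u v) (hc : c * c = 1) {X : End k V}
    (hX : X ∈ SpL ω) (u v : V) : ω (X v) u = c * ω (X u) v := by
  have h1 := hX v u
  rw [hs (X u) v] at h1
  linear_combination h1

theorem SpL_lift {c : k} (hs : ∀ u v, ω v u = -c * ω u v) (hc : c * c = 1)
    (hnd : ∀ u, (∀ v, ω u v = 0) → u = 0) {n : ℕ} (e : Basis (Fin n) k V)
    (Y : Matrix (Fin n) (Fin n) k) (hY : ∀ i j, Y j i = c * Y i j) :
    ∃ X ∈ SpL ω, ∀ i j, ω (X (e i)) (e j) = Y i j := by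
  obtain ⟨X, hX⟩ := exists_rep ω hnd (Matrix.toBilin e Y)
  have h1 : ∀ i j, ω (X (e i)) (e j) = Y i j := by
    intro i j
    rw [hX, Matrix.toBilin_apply]
    simp [Finsupp.single_apply]
  refine ⟨X, (mem_SpL_basis ω e).2 fun i j => ?_, h1⟩
  rw [hs (X (e j)) (e i), h1, h1, hY i j]
  linear_combination (-(Y i j)) * hc

theorem finrank_symm (hs : ∀ u v, ω u v = ω v u) (hnd : ∀ u, (∀ v, ω v u = 0) → u = 0) :
    finrank k (SpL ω) = finrank k V * (finrank k V - 1) / 2 := by
  have hs' : ∀ u v, ω v u = -(-1 : k) * ω u v := fun u v => by rw [neg_neg, one_mul, hs]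
  have hnd' : ∀ u, (∀ v, ω u v = 0) → u = 0 := fun u h => hnd u fun v => by rw [hs]; exact h v
  let e := finBasis k V
  let Φ : SpL ω →ₗ[k] ({p : Fin (finrank k V) × Fin (finrank k V) // p.1 < p.2} → k) :=
    { toFun := fun X p => ω (X.1 (e p.1.1)) (e p.1.2)
      map_add' := fun X Y => by
        funext p
        simp
      map_smul' := fun c X => by
        funext p
        simp }
  have hΦ : ∀ X p, Φ X p = ω (X.1 (e p.1.1)) (e p.1.2) := fun _ _ => rfl
  have hinj : Function.Injective Φ := by
    rw [← LinearMap.ker_eq_bot, LinearMap.ker_eq_bot']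
    rintro ⟨X, hX⟩ h
    have h1 : ∀ i j, ω (X (e i)) (e j) = 0 := by
      intro i j
      rcases lt_trichotomy i j with hij | hij | hij
      · exact congrFun h ⟨(i, j), hij⟩
      · subst hij
        have h2 := SpL_skew hs' (by ring) hX (e i) (e i)
        have h3 : (2 : k) * ω (X (e i)) (e i) = 0 := by linear_combination h2
        exact (mul_eq_zero.1 h3).resolve_left two_ne_zero
      · rw [SpL_skew hs' (by ring) hX (e j) (e i)]
        have h2 : ω (X (e j)) (e i) = 0 := congrFun h ⟨(j, i), hij⟩
        rw [h2, mul_zero]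
    refine Subtype.ext (e.ext fun i => hnd' _ fun v => ?_)
    exact form_zero e (ω ∘ₗ X) h1 (e i) v
  have hsurj : Function.Surjective Φ := by
    intro f
    obtain ⟨X, hX, h⟩ := SpL_lift hs' (by ring) hnd' e (Matrix.of fun i j =>
      if h : i < j then f ⟨(i, j), h⟩ else if h : j < i then -f ⟨(j, i), h⟩ else 0) (by
      intro i j
      simp only [Matrix.of_apply]
      rcases lt_trichotomy i j with hij | hij | hij
      · rw [dif_neg (asymm hij), dif_pos hij, dif_pos hij]
        ring
      · subst hij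
        simp
      · rw [dif_pos hij, dif_neg (asymm hij), dif_pos hij]
        ring)
    refine ⟨⟨X, hX⟩, funext fun p => ?_⟩
    rw [hΦ, h, Matrix.of_apply, dif_pos p.2]
  have h1 := (LinearEquiv.ofBijective Φ ⟨hinj, hsurj⟩).finrank_eq
  rw [Module.finrank_fintype_fun_eq_card] at h1
  have h2 := (card_lt (finrank k V)).1
  rw [h1, ← h2]
  omega

theorem finrank_alt (halt : ∀ v, ω v v = 0) (hnd : ∀ u, (∀ v, ω v u = 0) → u = 0) :
    finrank k (SpL ω) = finrank k V * (finrank k V + 1) / 2 := by
  have hs' : ∀ u v, ω v u = -(1 : k) * ω u v := fun u v => by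
    rw [alt_neg ω halt v u]
    ring
  have hnd' : ∀ u, (∀ v, ω u v = 0) → u = 0 := fun u h => hnd u fun v => by
    rw [alt_neg ω halt, h v, neg_zero]
  let e := finBasis k V
  let Φ : SpL ω →ₗ[k] ({p : Fin (finrank k V) × Fin (finrank k V) // p.1 ≤ p.2} → k) :=
    { toFun := fun X p => ω (X.1 (e p.1.1)) (e p.1.2)
      map_add' := fun X Y => by
        funext p
        simp
      map_smul' := fun c X => by
        funext p
        simp }
  have hΦ : ∀ X p, Φ X p = ω (X.1 (e p.1.1)) (e p.1.2) := fun _ _ => rfl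
  have hinj : Function.Injective Φ := by
    rw [← LinearMap.ker_eq_bot, LinearMap.ker_eq_bot']
    rintro ⟨X, hX⟩ h
    have h1 : ∀ i j, ω (X (e i)) (e j) = 0 := by
      intro i j
      rcases le_or_gt i j with hij | hij
      · exact congrFun h ⟨(i, j), hij⟩
      · rw [SpL_skew hs' (by ring) hX (e j) (e i)]
        have h2 : ω (X (e j)) (e i) = 0 := congrFun h ⟨(j, i), hij.le⟩
        rw [h2, mul_zero]
    refine Subtype.ext (e.ext fun i => hnd' _ fun v => ?_)
    exact form_zero e (ω ∘ₗ X) h1 (e i) v
  have hsurj : Function.Surjective Φ := by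
    intro f
    obtain ⟨X, hX, h⟩ := SpL_lift hs' (by ring) hnd' e (Matrix.of fun i j =>
      if h : i ≤ j then f ⟨(i, j), h⟩ else f ⟨(j, i), (not_le.1 h).le⟩) (by
      intro i j
      simp only [Matrix.of_apply, one_mul]
      rcases lt_trichotomy i j with hij | hij | hij
      · rw [dif_neg (not_le.2 hij), dif_pos hij.le]
      · subst hij
        rfl
      · rw [dif_pos hij.le, dif_neg (not_le.2 hij)])
    refine ⟨⟨X, hX⟩, funext fun p => ?_⟩
    rw [hΦ, h, Matrix.of_apply, dif_pos p.2]
  have h1 := (LinearEquiv.ofBijective Φ ⟨hinj, hsurj⟩).finrank_eq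
  rw [Module.finrank_fintype_fun_eq_card] at h1
  have h2 := (card_lt (finrank k V)).2
  rw [h1, ← h2]
  omega

end Pool.Agent.H20.TI
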